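import Mathlib

set_option autoImplicit false

/-!
# All solutions of the min-max recursive distributional equation on the binary tree

`Ψ = Φ ∘ Φ'` is one round (a min step `Φ'` followed by a max step `Φ`) of the noisy min-max game on
the binary tree, acting on distribution functions. We show: a distribution function `F` on the real
line satisfies `Ψ F = F` if and only if `F (x + 2) = h (F x)` for all `x`, with `h p = 2 √p - p`.

Proof. Fix `x`, put `a k = F (x + 2 k)`, `s k = √(a k)`, `m k = (a k + a (k + 1)) / 2` and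
`D k = s k - m k`. The equation `Ψ F = F` at `x + 2 k` is equivalent to the exact identity
`D k * ((1 - s k) + (1 - m k)) = D (k - 1) * (s (k - 1) + m (k - 1))`.
As `k → -∞`, the first bracket tends to `2` and the second one to `0`, so `|D|` at least doubles
with each step to the left; as it is bounded, `D k = 0` for all very negative `k`, and then for all
`k` by the identity.
-/

open MeasureTheory ProbabilityTheory Filter Topology

namespace Pool.Agent.Results.MP_e9a5a5_pr.AllFixedPoints

/-- Convolution with the law of the weights: `(μ * F) x = (F (x - 1) + F (x + 1)) / 2`. -/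
noncomputable def smear (F : ℝ → ℝ) : ℝ → ℝ := fun x => (F (x - 1) + F (x + 1)) / 2

/-- One max step, `Φ F = (μ * F) ^ 2`. -/
noncomputable def maxStep (F : ℝ → ℝ) : ℝ → ℝ := fun x => smear F x ^ 2

/-- One min step, `Φ' F = 1 - (1 - μ * F) ^ 2`. -/
noncomputable def minStep (F : ℝ → ℝ) : ℝ → ℝ := fun x => 1 - (1 - smear F x) ^ 2

/-- One round, `Ψ = Φ ∘ Φ'`. -/
noncomputable def roundMap (F : ℝ → ℝ) : ℝ → ℝ := maxStep (minStep F)

/-- `h p = 2 √p - p`. -/
noncomputable def hMap (p : ℝ) : ℝ := 2 * √p - p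

lemma round_eq (F : ℝ → ℝ) (x : ℝ) :
    roundMap F x = (1 - 1 / 2 * (1 - (F (x - 2) + F x) / 2) ^ 2
      - 1 / 2 * (1 - (F x + F (x + 2)) / 2) ^ 2) ^ 2 := by
  unfold roundMap maxStep smear minStep smear
  have e1 : x - 1 - 1 = x - 2 := by ring
  have e2 : x - 1 + 1 = x := by ring
  have e3 : x + 1 - 1 = x := by ring
  have e4 : x + 1 + 1 = x + 2 := by ring
  rw [e1, e2, e3, e4]
  ring

/-- The exact identity for the deviations. -/
lemma identity {b a c : ℝ} (hb : 0 ≤ b) (ha : 0 ≤ a)
    (hc0 : 0 ≤ c) (hb1 : b ≤ 1) (ha1 : a ≤ 1) (hc1 : c ≤ 1)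
    (heq : (1 - 1 / 2 * (1 - (b + a) / 2) ^ 2 - 1 / 2 * (1 - (a + c) / 2) ^ 2) ^ 2 = a) :
    (√a - (a + c) / 2) * ((1 - √a) + (1 - (a + c) / 2)) =
      (√b - (b + a) / 2) * (√b + (b + a) / 2) := by
  have hs : √a = 1 - 1 / 2 * (1 - (b + a) / 2) ^ 2 - 1 / 2 * (1 - (a + c) / 2) ^ 2 := by
    have h0 : 0 ≤ 1 - 1 / 2 * (1 - (b + a) / 2) ^ 2 - 1 / 2 * (1 - (a + c) / 2) ^ 2 := by
      nlinarith
    have := Real.sqrt_sq h0
    rw [heq] at this
    exact this
  have hb2 : √b ^ 2 = b := Real.sq_sqrt hb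
  have ha2 : √a ^ 2 = a := Real.sq_sqrt ha
  nlinarith [hs, hb2, ha2]

lemma deviation_zero (a : ℤ → ℝ) (h0 : ∀ k, 0 ≤ a k) (h1 : ∀ k, a k ≤ 1)
    (hlim : Tendsto a atBot (𝓝 0))
    (heq : ∀ k, (1 - 1 / 2 * (1 - (a (k - 1) + a k) / 2) ^ 2
      - 1 / 2 * (1 - (a k + a (k + 1)) / 2) ^ 2) ^ 2 = a k) (k : ℤ) :
    √(a k) - (a k + a (k + 1)) / 2 = 0 := by
  set D : ℤ → ℝ := fun k => √(a k) - (a k + a (k + 1)) / 2 with hD
  have hsq1 : ∀ k, √(a k) ≤ 1 := fun k => by
    exact Real.sqrt_le_one.2 (h1 k)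
  have hid : ∀ k, D k * ((1 - √(a k)) + (1 - (a k + a (k + 1)) / 2)) =
      D (k - 1) * (√(a (k - 1)) + (a (k - 1) + a k) / 2) := by
    intro k
    have := identity (h0 (k - 1)) (h0 k) (h0 (k + 1)) (h1 (k - 1)) (h1 k) (h1 (k + 1)) (heq k)
    simp only [hD, sub_add_cancel]
    exact this
  have hsq : Tendsto (fun k => √(a k)) atBot (𝓝 0) := by
    have := (Real.continuous_sqrt.tendsto 0).comp hlim
    rw [Real.sqrt_zero] at this
    exact this
  -- far to the left everything is small
  obtain ⟨K, hK⟩ : ∃ K : ℤ, ∀ j ≤ K, a j ≤ 1 / 8 ∧ √(a j) ≤ 1 / 8 := by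
    have e1 := hlim.eventually (ge_mem_nhds (show (0 : ℝ) < 1 / 8 by norm_num))
    have e2 := hsq.eventually (ge_mem_nhds (show (0 : ℝ) < 1 / 8 by norm_num))
    obtain ⟨K, hK⟩ := eventually_atBot.1 (e1.and e2)
    exact ⟨K, hK⟩
  have hbd : ∀ j, |D j| ≤ 1 := by
    intro j
    have := hsq1 j
    have := Real.sqrt_nonneg (a j)
    have := h0 j
    have := h0 (j + 1)
    have := h1 j
    have := h1 (j + 1)
    rw [abs_le]
    constructor <;> simp only [hD] <;> linarith
  have hdouble : ∀ j ≤ K - 1, |D j| ≤ 1 / 2 * |D (j - 1)| := by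
    intro j hj
    have k1 := hK j (by omega)
    have k2 := hK (j - 1) (by omega)
    have k3 := hK (j + 1) (by omega)
    have p1 : 1 ≤ (1 - √(a j)) + (1 - (a j + a (j + 1)) / 2) := by linarith [k1.1, k1.2, k3.1]
    have p2 : √(a (j - 1)) + (a (j - 1) + a j) / 2 ≤ 1 / 2 := by linarith [k1.1, k2.1, k2.2]
    have p3 : 0 ≤ √(a (j - 1)) + (a (j - 1) + a j) / 2 := by
      have := Real.sqrt_nonneg (a (j - 1))
      have := h0 j
      have := h0 (j - 1)
      linarith
    have e := congrArg abs (hid j)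
    rw [abs_mul, abs_mul, abs_of_nonneg (by linarith : (0 : ℝ) ≤ (1 - √(a j)) + (1 - (a j + a (j + 1)) / 2)),
      abs_of_nonneg p3] at e
    have q1 := mul_le_mul_of_nonneg_left p1 (abs_nonneg (D j))
    have q2 := mul_le_mul_of_nonneg_left p2 (abs_nonneg (D (j - 1)))
    linarith
  have hsmall : ∀ n : ℕ, ∀ j ≤ K - 1, |D j| ≤ (1 / 2) ^ n := by
    intro n
    induction n with
    | zero => intro j _; simpa using hbd j
    | succ n ih =>
      intro j hj
      have := hdouble j hj
      have := ih (j - 1) (by omega)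
      rw [pow_succ]
      linarith
  have hleft : ∀ j ≤ K - 1, D j = 0 := by
    intro j hj
    have ht : Tendsto (fun n : ℕ => ((1 : ℝ) / 2) ^ n) atTop (𝓝 0) :=
      tendsto_pow_atTop_nhds_zero_of_lt_one (by norm_num) (by norm_num)
    have := ge_of_tendsto' ht (fun n => hsmall n j hj)
    exact abs_nonpos_iff.1 this
  have hstep : ∀ j, D (j - 1) = 0 → D j = 0 := by
    intro j hj
    have e := hid j
    rw [hj, zero_mul] at e
    rcases mul_eq_zero.1 e with e | e
    · exact e
    · have q1 := hsq1 j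
      have q2 : (a j + a (j + 1)) / 2 ≤ 1 := by linarith [h1 j, h1 (j + 1)]
      simp only [hD]
      linarith
  have hall : ∀ n : ℕ, D (K - 1 + n) = 0 := by
    intro n
    induction n with
    | zero => simpa using hleft (K - 1) le_rfl
    | succ n ih =>
      apply hstep
      have : K - 1 + ((n + 1 : ℕ) : ℤ) - 1 = K - 1 + n := by push_cast; ring
      rw [this]
      exact ih
  rcases le_total k (K - 1) with hk | hk
  · exact hleft k hk
  · obtain ⟨n, hn⟩ := Int.eq_ofNat_of_zero_le (sub_nonneg.2 hk)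
    have : k = K - 1 + n := by omega
    rw [this]
    exact hall n

/-- **Answer to Q1: yes.** A distribution function `F` on the real line (of any probability measure
`ν`) is a fixed point of `Ψ`, the round of the noisy min-max game on the binary tree, if and only if
`F (x + 2) = h (F x)` for all real `x`; and then also `Φ' F = S F`, that is,
`Φ' F x = F (x + 1)` for all real `x`. -/
theorem result (ν : Measure ℝ) [IsProbabilityMeasure ν] :
    (roundMap (cdf ν) = cdf ν ↔ ∀ x : ℝ, cdf ν (x + 2) = hMap (cdf ν x)) ∧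
    (roundMap (cdf ν) = cdf ν → ∀ x : ℝ, minStep (cdf ν) x = cdf ν (x + 1)) := by
  have key : roundMap (cdf ν) = cdf ν → ∀ x : ℝ, cdf ν (x + 2) = hMap (cdf ν x) := by
    intro hfix x
    have hlim : Tendsto (fun k : ℤ => cdf ν (x + 2 * k)) atBot (𝓝 0) := by
      refine (tendsto_cdf_atBot ν).comp ?_
      refine tendsto_atBot_add_const_left _ _ ?_
      exact (tendsto_intCast_atBot_iff.2 tendsto_id).const_mul_atBot (by norm_num)
    have := deviation_zero (fun k : ℤ => cdf ν (x + 2 * k)) (fun k => cdf_nonneg ν _)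
      (fun k => cdf_le_one ν _) hlim (fun k => ?_) 0
    · simp only [Int.cast_zero, mul_zero, add_zero, zero_add, Int.cast_one, mul_one] at this
      unfold hMap
      linarith
    · have e := congrFun hfix (x + 2 * k)
      rw [round_eq] at e
      have e1 : x + 2 * ((k - 1 : ℤ) : ℝ) = x + 2 * k - 2 := by push_cast; ring
      have e2 : x + 2 * ((k + 1 : ℤ) : ℝ) = x + 2 * k + 2 := by push_cast; ring
      simp only [e1, e2]
      exact e
  have conv1 : ∀ p : ℝ, 0 ≤ p → 1 - (1 - (p + hMap p) / 2) ^ 2 = hMap p := by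
    intro p hp
    have := Real.sq_sqrt hp
    unfold hMap
    nlinarith
  refine ⟨⟨key, ?_⟩, ?_⟩
  · intro hh
    funext x
    unfold roundMap maxStep
    have m1 : ∀ y, minStep (cdf ν) y = cdf ν (y + 1) := by
      intro y
      have := hh (y - 1)
      have e : y - 1 + 2 = y + 1 := by ring
      rw [e] at this
      unfold minStep smear
      rw [this]
      exact conv1 _ (cdf_nonneg ν _)
    unfold smear
    rw [m1, m1]
    have e1 : x - 1 + 1 = x := by ring
    have e2 : x + 1 + 1 = x + 2 := by ring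
    rw [e1, e2, hh x]
    unfold hMap
    have := Real.sq_sqrt (cdf_nonneg ν x)
    have e3 : (cdf ν x + (2 * √(cdf ν x) - cdf ν x)) / 2 = √(cdf ν x) := by ring
    rw [e3]
    exact this
  · intro hfix y
    have := key hfix (y - 1)
    have e : y - 1 + 2 = y + 1 := by ring
    rw [e] at this
    unfold minStep smear
    rw [this]
    exact conv1 _ (cdf_nonneg ν _)

end Pool.Agent.Results.MP_e9a5a5_pr.AllFixedPoints
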